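import Pool.Agent.T9h55.KU.Spec

set_option autoImplicit false

namespace Pool.Agent.T9h56.MV

open Finset MeasureTheory ProbabilityTheory Filter Topology
open Pool.Agent.T9h55.KT (pr)
open Pool.Agent.T9h55.KU

universe u

lemma big (A K : ℕ) (hK : 1 ≤ K) : ∀ᶠ b : ℕ in atTop, 8 * (K : ℝ) * Real.log b ^ A ≤ b := by
  have hK' : (0 : ℝ) < K := by exact_mod_cast hK
  have hlog : Tendsto (fun k : ℕ => Real.log (k : ℝ)) atTop atTop :=
    Real.tendsto_log_atTop.comp tendsto_natCast_atTop_atTop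
  have h1 := (Real.isLittleO_pow_log_id_atTop (n := A)).comp_tendsto
    (tendsto_natCast_atTop_atTop (R := ℝ))
  have h2 := h1.bound (show (0 : ℝ) < 1 / (8 * K) by positivity)
  filter_upwards [h2, hlog.eventually_ge_atTop 1] with b hb hL
  simp only [Function.comp, id, Real.norm_eq_abs] at hb
  rw [abs_of_nonneg (pow_nonneg (by linarith) _), abs_of_nonneg (Nat.cast_nonneg _)] at hb
  have h3 : 8 * (K : ℝ) * Real.log b ^ A ≤ 8 * K * (1 / (8 * K) * b) :=
    mul_le_mul_of_nonneg_left hb (by positivity)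
  refine h3.trans (le_of_eq ?_)
  field_simp

/-- Piece HM -/
theorem hm : S_HM.{u} := by
  intro Ω _ μ _ A K M hK hM H ξ hH hξ
  obtain ⟨N0, hN0⟩ := eventually_atTop.1 hH
  have hlog : Tendsto (fun k : ℕ => Real.log (k : ℝ)) atTop atTop :=
    Real.tendsto_log_atTop.comp tendsto_natCast_atTop_atTop
  filter_upwards [Pool.Agent.T9h55.KT.primes_ap' 1 (A + 1),
    hlog.eventually_ge_atTop (8 * K : ℝ), hlog.eventually_ge_atTop (M : ℝ), big A K hK,
    eventually_ge_atTop (2 * N0 + 16)] with b hap hL8 hLM hb hbN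
  intro hcop B hB
  set L : ℝ := Real.log b with hLdef
  have hK' : (1 : ℝ) ≤ K := by exact_mod_cast hK
  have hM' : (1 : ℝ) ≤ M := by exact_mod_cast hM
  have hL1 : 1 ≤ L := by linarith
  have hL0 : 0 < L := by linarith
  have hLA : 1 ≤ L ^ A := one_le_pow₀ hL1
  have hb0 : (0 : ℝ) < b := by
    have : 0 < b := by omega
    exact_mod_cast this
  have hKL : 1 ≤ (K : ℝ) * L ^ A := one_le_mul_of_one_le_of_one_le hK' hLA
  set q : ℕ := ⌊(b : ℝ) / (4 * K * L ^ A)⌋₊ with hqdef
  have hq1 : (q : ℝ) ≤ b / (4 * K * L ^ A) := Nat.floor_le (by positivity)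
  have hq2 : (b : ℝ) / (4 * K * L ^ A) < q + 1 := Nat.lt_floor_add_one _
  have hr : 1 ≤ (b : ℝ) / (8 * K * L ^ A) := by
    rw [one_le_div (by positivity)]
    exact hb
  have hr2 : (b : ℝ) / (4 * K * L ^ A) = 2 * (b / (8 * K * L ^ A)) := by
    field_simp
    ring
  have hq3 : (b : ℝ) / (8 * K * L ^ A) ≤ q := by linarith
  have hq4 : (b : ℝ) / (4 * K * L ^ A) ≤ b / 4 := by
    apply div_le_div_of_nonneg_left hb0.le (by norm_num)
    nlinarith
  have hq5 : 4 * q ≤ b := by
    have : (4 : ℝ) * q ≤ b := by linarith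
    exact_mod_cast this
  have hqb : q ≤ b := by omega
  have hlen : (b : ℝ) / L ^ (A + 1) ≤ (b : ℝ) - ((b - q : ℕ) : ℝ) := by
    rw [Nat.cast_sub hqb]
    have h1 : (b : ℝ) / L ^ (A + 1) ≤ b / (8 * K * L ^ A) := by
      apply div_le_div_of_nonneg_left hb0.le (by positivity)
      rw [pow_succ, mul_comm (L ^ A) L]
      exact mul_le_mul_of_nonneg_right hL8 (by positivity)
    linarith
  have hcount := hap M hM (by rw [pow_one]; exact hLM) b hcop (b - q) b (Nat.sub_le _ _) le_rfl hlen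
  rw [Nat.cast_sub hqb, sub_sub_cancel] at hcount
  set F : Finset ℕ := (Ioc (b - q) b).filter fun p => p.Prime ∧ p ≡ b [MOD M] with hFdef
  -- the primes
  have hprime : ∀ p ∈ F, 3 * b ≤ 4 * p ∧ p ≤ b ∧ p.Prime ∧
      L ^ A / (K * 2 ^ A * b) ≤ pr μ (fun p ω => p + M * ξ p ω) p b := by
    intro p hp
    rw [hFdef, mem_filter, mem_Ioc] at hp
    obtain ⟨⟨hp1, hpb⟩, hpp, hpm⟩ := hp
    have h34 : 3 * b ≤ 4 * p := by omega
    refine ⟨h34, hpb, hpp, ?_⟩
    obtain ⟨h, hh⟩ := (Nat.modEq_iff_dvd' hpb).1 hpm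
    have hset : {ω | p + M * ξ p ω = b} = {ω | ξ p ω = h} := by
      ext ω
      simp only [Set.mem_setOf_eq]
      constructor
      · intro h1
        have h2 : M * ξ p ω = M * h := by omega
        exact Nat.eq_of_mul_eq_mul_left (by omega) h2
      · intro h1
        rw [h1]
        omega
    have hpN : N0 ≤ p := by omega
    obtain ⟨hH1, hH2⟩ := hN0 p hpN
    have hp0 : (0 : ℝ) < p := by exact_mod_cast hpp.pos
    have hpb' : (p : ℝ) ≤ b := by exact_mod_cast hpb
    have hp34 : 3 * (b : ℝ) ≤ 4 * p := by exact_mod_cast h34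
    have hl : Real.log p ≤ L := Real.log_le_log hp0 hpb'
    have hb2 : (16 : ℝ) ≤ b := by
      have : 16 ≤ b := by omega
      exact_mod_cast this
    have hl2 : L ≤ 2 * Real.log p := by
      have h1 : Real.log ((p : ℝ) ^ 2) = 2 * Real.log p := by
        rw [Real.log_pow]
        norm_num
      rw [← h1]
      exact Real.log_le_log hb0 (by nlinarith)
    have hl0 : 0 < Real.log p := by linarith
    have hlA : Real.log p ^ A ≤ L ^ A := pow_le_pow_left₀ hl0.le hl A
    have hlA0 : 0 < Real.log p ^ A := pow_pos hl0 A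
    have hHlow : (b : ℝ) / (4 * K * L ^ A) ≤ H p := by
      refine le_trans ?_ hH1
      rw [div_le_div_iff₀ (by positivity) (by positivity)]
      have h1 : (K : ℝ) * Real.log p ^ A ≤ K * L ^ A := mul_le_mul_of_nonneg_left hlA (by positivity)
      calc (b : ℝ) * (K * Real.log p ^ A) ≤ b * (K * L ^ A) :=
            mul_le_mul_of_nonneg_left h1 hb0.le
        _ ≤ (4 * p) * (K * L ^ A) := mul_le_mul_of_nonneg_right (by linarith) (by positivity)
        _ = p * (4 * K * L ^ A) := by ring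
    have hMh : (M : ℝ) * h = b - p := by
      have : M * h + p = b := by omega
      have h2 : ((M * h + p : ℕ) : ℝ) = b := by rw [this]
      push_cast at h2
      linarith
    have hlt : h < H p := by
      have h1 : (h : ℝ) ≤ M * h := le_mul_of_one_le_left (Nat.cast_nonneg _) hM'
      have h2 : (b : ℝ) - p < q := by
        have : b < p + q := by omega
        have h3 : (b : ℝ) < p + q := by exact_mod_cast this
        linarith
      have h3 : (h : ℝ) < H p := by linarith
      exact_mod_cast h3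
    have hH0 : (0 : ℝ) < H p := by
      have : 0 < H p := by omega
      exact_mod_cast this
    show L ^ A / (K * 2 ^ A * b) ≤ μ.real {ω | p + M * ξ p ω = b}
    rw [hset, hξ p hpp.one_lt.le h hlt, div_le_div_iff₀ (by positivity) hH0]
    have h1 : (H p : ℝ) * Real.log p ^ A ≤ K * p := by
      rwa [le_div_iff₀ hlA0] at hH2
    have h2 : L ^ A ≤ 2 ^ A * Real.log p ^ A := by
      rw [← mul_pow]
      exact pow_le_pow_left₀ hL0.le hl2 A
    calc L ^ A * (H p : ℝ) ≤ (2 ^ A * Real.log p ^ A) * H p :=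
          mul_le_mul_of_nonneg_right h2 hH0.le
      _ = 2 ^ A * (H p * Real.log p ^ A) := by ring
      _ ≤ 2 ^ A * (K * p) := mul_le_mul_of_nonneg_left h1 (by positivity)
      _ ≤ 2 ^ A * (K * b) := by
          apply mul_le_mul_of_nonneg_left _ (by positivity)
          exact mul_le_mul_of_nonneg_left hpb' (by positivity)
      _ = 1 * (K * 2 ^ A * b) := by ring
  have hFB : F ⊆ B := fun p hp => by
    obtain ⟨h1, h2, h3, -⟩ := hprime p hp
    exact hB p h1 h2 h3
  have hsum1 : ∑ p ∈ F, pr μ (fun p ω => p + M * ξ p ω) p b ≤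
      ∑ p ∈ B, pr μ (fun p ω => p + M * ξ p ω) p b :=
    sum_le_sum_of_subset_of_nonneg hFB fun p _ _ => measureReal_nonneg
  have hsum2 := card_nsmul_le_sum F (fun p => pr μ (fun p ω => p + M * ξ p ω) p b)
    (L ^ A / (K * 2 ^ A * b)) fun p hp => (hprime p hp).2.2.2
  rw [nsmul_eq_mul] at hsum2
  refine le_trans ?_ (hsum2.trans hsum1)
  have hφ0 : (0 : ℝ) < Nat.totient M := by exact_mod_cast Nat.totient_pos.2 hM
  have hφ : (Nat.totient M : ℝ) ≤ M := by exact_mod_cast Nat.totient_le M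
  have hF : (b : ℝ) / (8 * K * L ^ A) / (2 * M * L) ≤ (#F : ℝ) := by
    refine le_trans ?_ hcount
    apply div_le_div₀ (Nat.cast_nonneg _) hq3 (by positivity)
    apply mul_le_mul_of_nonneg_right _ hL0.le
    linarith
  calc 1 / (16 * 2 ^ A * (K : ℝ) ^ 2 * M * L) =
        (b : ℝ) / (8 * K * L ^ A) / (2 * M * L) * (L ^ A / (K * 2 ^ A * b)) := by
          field_simp
          ring
    _ ≤ _ := mul_le_mul_of_nonneg_right hF (by positivity)

end Pool.Agent.T9h56.MV
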